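import Pool.Agent.H29.DPC.S2

/-!
# DPC: the traces in terms of families (BRG)
-/

set_option autoImplicit false

namespace Pool.DPC

open Polynomial Complex

namespace BRG3

/-- The ramified primes as a finite set. -/
theorem coe_supF {φ : Ch} (h : (sup φ).Finite) : ((supF φ : Finset Nat.Primes) : Set Nat.Primes) =
    sup φ := by
  unfold supF
  rw [dif_pos h, Set.Finite.coe_toFinset]

/-- `toDC` as a homomorphism. -/
noncomputable def hom (h1 : TD1Stmt) (C : Finset Nat.Primes) :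
    Ch →* DirichletCharacter ℂ (cn C) where
  toFun := toDC C
  map_one' := h1.2.1 C
  map_mul' := h1.1 C

/-- The elements of a group with two generators. -/
theorem tame_closure (hS : SUPStmt) {n : ℕ} {φ χ : Ch} (h1 : Tame n φ) (h2 : Tame n χ) {ψ : Ch}
    (hψ : ψ ∈ Subgroup.closure {φ, χ}) (hn : 0 < n) : Tame n ψ ∧ sup ψ ⊆ sup φ ∪ sup χ := by
  have hinv : ∀ ψ : Ch, Tame n ψ → ψ⁻¹ = ψ ^ (n - 1) := fun ψ h => by
    rw [inv_eq_iff_mul_eq_one, ← pow_succ', Nat.sub_add_cancel hn]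
    exact h.exp
  refine Subgroup.closure_induction (p := fun ψ _ => Tame n ψ ∧ sup ψ ⊆ sup φ ∪ sup χ) ?_ ?_ ?_ ?_
    hψ
  · intro x hx
    rcases hx with hx | hx
    · rw [hx]
      exact ⟨h1, Set.subset_union_left⟩
    · rw [Set.mem_singleton_iff] at hx
      rw [hx]
      exact ⟨h2, Set.subset_union_right⟩
  · refine ⟨hS.2.2.2.2.1 n, fun l hl => absurd rfl hl⟩
  · intro x y _ _ hx hy
    exact ⟨hS.2.2.2.2.2.1 n x y hx.1 hy.1, (hS.1 x y).trans (Set.union_subset hx.2 hy.2)⟩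
  · intro x _ hx
    rw [hinv x hx.1]
    exact ⟨hS.2.2.2.2.2.2.1 n (n - 1) x hx.1, (hS.2.2.1 x (n - 1)).trans hx.2⟩

end BRG3

open BRG3 in
open Classical in
/-- BRG. -/
theorem t_brg (h1 : TD1Stmt) (h2 : TD2Stmt) (h3 : TD3Stmt) (hV : VCRStmt) (hS : SUPStmt) :
    BRGStmt := by
  intro k n d Om P U L hn hW hU hL hT φ χ hφ hχ
  obtain ⟨C, hC⟩ : ∃ C, C = supF φ ∪ supF χ := ⟨_, rfl⟩
  have hCc : (C : Set Nat.Primes) = sup φ ∪ sup χ := by
    rw [hC, Finset.coe_union, coe_supF hφ.fin, coe_supF hχ.fin]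
  have hcl : ∀ ψ ∈ Subgroup.closure {φ, χ}, Tame n ψ ∧ sup ψ ⊆ C := fun ψ hψ => by
    rw [hCc]
    exact tame_closure hS hφ hχ hψ hn
  have hmap : (Subgroup.closure {φ, χ}).map (hom h1 C) =
      Subgroup.closure {toDC C φ, toDC C χ} := by
    rw [MonoidHom.map_closure, Set.image_pair]
    rfl
  have hF : FieldData n (cn C) (Subgroup.closure {toDC C φ, toDC C χ}) := by
    refine ⟨(h3.2.2.2 C).1, fun psi hpsi => ?_, fun psi hpsi => ?_, fun l hl hlf => ?_⟩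
    · rw [← hmap] at hpsi
      obtain ⟨ψ, hψ, rfl⟩ := hpsi
      obtain ⟨k1, k2⟩ := hcl ψ hψ
      exact (h1.2.2.2 C ψ k2).2 k1.even
    · rw [← hmap] at hpsi
      obtain ⟨ψ, hψ, rfl⟩ := hpsi
      rw [← map_pow, (hcl ψ hψ).1.exp, map_one]
    · have hlC : (⟨l, hl⟩ : Nat.Primes) ∈ C := ((h3.2.2.2 C).2 ⟨l, hl⟩).1 hlf
      have h5 : (⟨l, hl⟩ : Nat.Primes) ∈ sup φ ∪ sup χ := by
        rw [← hCc]
        exact hlC
      rcases h5 with h5 | h5
      · refine ⟨toDC C φ, Subgroup.subset_closure (by simp), ?_⟩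
        exact (h3.1 C φ ⟨l, hl⟩ (hcl φ (Subgroup.subset_closure (by simp))).2 hlC).2 h5
      · refine ⟨toDC C χ, Subgroup.subset_closure (by simp), ?_⟩
        exact (h3.1 C χ ⟨l, hl⟩ (hcl χ (Subgroup.subset_closure (by simp))).2 hlC).2 h5
  have h6 := hT (cn C) _ hF ⟨_, _, rfl⟩
  rw [← hmap, Subgroup.coe_map] at h6
  have hinj : Set.InjOn (hom h1 C) (Subgroup.closure {φ, χ} : Set Ch) := fun x hx y hy hxy =>
    h2.1 C x y (hcl x hx).2 (hcl y hy).2 hxy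
  rw [finsum_mem_image hinj] at h6
  have h7 : ∑ᶠ ψ ∈ (Subgroup.closure {φ, χ} : Set Ch),
      wl (V0 d Om L) (Rf d P) (sup φ ∪ sup χ) ψ = ∑ᶠ ψ ∈ (Subgroup.closure {φ, χ} : Set Ch),
      normValue d Om (L (cn C)) (hom h1 C ψ) := by
    refine finsum_mem_congr rfl fun ψ hψ => ?_
    obtain ⟨k1, k2⟩ := hcl ψ hψ
    rw [← hCc, ← hV n d Om P U L hW hU hL C ψ k1 k2]
    rfl
  rw [h7]
  exact h6

end Pool.DPC
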