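import Pool.Agent.H29.DPC.S2

/-!
# DPC: one more prime in the level (VAL)
-/

set_option autoImplicit false

namespace Pool.DPC

open Polynomial Complex

namespace VAL3

/-- `toDC` as a homomorphism. -/
noncomputable def hom (h1 : TD1Stmt) (C : Finset Nat.Primes) :
    Ch →* DirichletCharacter ℂ (cn C) where
  toFun := toDC C
  map_one' := h1.2.1 C
  map_mul' := h1.1 C

theorem cn_ne (C : Finset Nat.Primes) : cn C ≠ 0 :=
  Finset.prod_ne_zero_iff.2 fun l _ => l.2.ne_zero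

theorem toDC_pow (h1 : TD1Stmt) {n : ℕ} (C : Finset Nat.Primes) {φ : Ch} (h : φ ^ n = 1) :
    toDC C φ ^ n = 1 := by
  have h2 : (hom h1 C) φ ^ n = 1 := by rw [← map_pow, h, map_one]
  exact h2

end VAL3

open VAL3 in
/-- VAL. -/
theorem t_val (h1 : TD1Stmt) (h3 : TD3Stmt) (hG : GSMStmt) (hL' : LFPStmt) : VALStmt := by
  intro n d Om P U L hW hU hL C p φ hφ hC hp
  have hcn : cn (insert p C) = (p : ℕ) * cn C := Finset.prod_insert hp
  have hdvd : cn C ∣ cn (insert p C) := by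
    rw [hcn]
    exact dvd_mul_left _ _
  have hpf : ¬ (p : ℕ) ∣ cn C := fun h => hp (((h3.2.2.2 C).2 p).1 h)
  obtain ⟨psi, hpsi⟩ : ∃ psi, psi = toDC C φ := ⟨_, rfl⟩
  have hlev : toDC (insert p C) φ = DirichletCharacter.changeLevel hdvd psi := by
    rw [hpsi]
    exact h3.2.1 C (insert p C) φ hdvd hC (Finset.subset_insert p C)
  have hval : psi ((p : ℕ) : ZMod (cn C)) = ev φ (p : ℕ) := by
    rw [hpsi]
    refine h1.2.2.1 C φ (p : ℕ) hC fun l hl h => ?_
    have h4 : (l : ℕ) = p := (Nat.prime_dvd_prime_iff_eq l.2 p.2).1 h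
    have h5 : l = p := Subtype.ext h4
    rw [h5] at hl
    exact hp hl
  have hC' : sup φ ⊆ ((insert p C : Finset Nat.Primes) : Set Nat.Primes) := hC.trans (by
    rw [Finset.coe_insert]
    exact Set.subset_insert _ _)
  have e1 : psi.Even := by
    rw [hpsi]
    exact (h1.2.2.2 C φ hC).2 hφ.even
  have e2 : (DirichletCharacter.changeLevel hdvd psi).Even := by
    rw [← hlev]
    exact (h1.2.2.2 (insert p C) φ hC').2 hφ.even
  have x1 : psi ^ n = 1 := by
    rw [hpsi]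
    exact toDC_pow h1 C hφ.exp
  have x2 : (DirichletCharacter.changeLevel hdvd psi) ^ n = 1 := by
    rw [← hlev]
    exact toDC_pow h1 (insert p C) hφ.exp
  have t1 := hL (cn C) psi (h3.2.2.2 C).1 e1 x1
  have t2 := hL (cn (insert p C)) (DirichletCharacter.changeLevel hdvd psi)
    (h3.2.2.2 (insert p C)).1 e2 x2
  have g1 := hG (cn C) (cn (insert p C)) (p : ℕ) hdvd psi⁻¹ (cn_ne C) p.2 hpf hcn
  have l1 := hL' d P U (cn C) (cn (insert p C)) (p : ℕ) hdvd psi _ _ hW hU (cn_ne C) p.2 hpf hcn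
    t1 t2
  have hinv : (psi⁻¹ : DirichletCharacter ℂ (cn C)) ((p : ℕ) : ZMod (cn C)) =
      (ev φ (p : ℕ))⁻¹ := by
    rw [MulChar.inv_apply_eq_inv', hval]
  unfold Vc normValue
  rw [hlev, ← hpsi, ← map_inv, g1, l1, hinv, hval]
  unfold Rf
  rw [mul_pow, neg_pow]
  ring

end Pool.DPC
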