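import Pool.Agent.H29.DPC.S2

/-!
# DPC: the values at all levels (VCR)
-/

set_option autoImplicit false

namespace Pool.DPC

open Polynomial Complex

namespace VCR3

/-- The ramified primes as a finite set. -/
theorem coe_supF {φ : Ch} (h : (sup φ).Finite) : ((supF φ : Finset Nat.Primes) : Set Nat.Primes) =
    sup φ := by
  unfold supF
  rw [dif_pos h, Set.Finite.coe_toFinset]

end VCR3

open VCR3 in
/-- VCR. -/
theorem t_vcr (hV : VALStmt) : VCRStmt := by
  intro n d Om P U L hW hU hL C φ hφ hC
  have hs := coe_supF hφ.fin
  have key : ∀ D : Finset Nat.Primes, Disjoint (supF φ) D →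
      Vc d Om L (supF φ ∪ D) φ = V0 d Om L φ * ∏ l ∈ D, Rf d P l (ev φ (l : ℕ)) := by
    intro D
    induction D using Finset.induction_on with
    | empty =>
      intro _
      rw [Finset.union_empty, Finset.prod_empty, mul_one]
      rfl
    | insert p D hp ih =>
      intro hd
      rw [Finset.disjoint_insert_right] at hd
      have h1 : supF φ ∪ insert p D = insert p (supF φ ∪ D) := Finset.union_insert p (supF φ) D
      have h2 := hV n d Om P U L hW hU hL (supF φ ∪ D) p φ hφ (by
        rw [Finset.coe_union, hs]
        exact Set.subset_union_left) (by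
        rw [Finset.mem_union, not_or]
        exact ⟨hd.1, hp⟩)
      rw [h1, h2, ih hd.2, Finset.prod_insert hp]
      ring
  have hCs : supF φ ⊆ C := by
    rw [← Finset.coe_subset, hs]
    exact hC
  have h1 := key (C \ supF φ) Finset.disjoint_sdiff
  rw [Finset.union_sdiff_of_subset hCs] at h1
  rw [h1]
  unfold wl
  have h2 : (C : Set Nat.Primes) \ sup φ = ((C \ supF φ : Finset Nat.Primes) : Set Nat.Primes) := by
    rw [Finset.coe_sdiff, hs]
  rw [h2, finprod_mem_coe_finset]

end Pool.DPC
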